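import Mathlib
import Pool.Agent.AWP.MAIN
import Pool.Agent.AWP.LOWER
import Pool.Agent.AWP.UPPER
import Pool.Agent.AWP.CRTB
import Pool.Agent.AWP.PAT
import Pool.Agent.AWP.IRRD
import Pool.Agent.AWP.FROB
import Pool.Agent.AWP.TRCO
import Pool.Agent.AWP.ROIR
import Pool.Agent.AWP.ONE
import Pool.Agent.AWP.FIN

set_option autoImplicit false

/-!
# 100 per cent of the isogeny classes of abelian varieties over finite fields

Fix dimensions `g_1, ..., g_r`. As the prime power `q` tends to infinity, for 100 per cent of the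
`r`-tuples of real Weil polynomials of the degrees `g_j` for `q` the Weil polynomials are irreducible
and all Tate weights, of all codimensions, on all products of powers `∏ A_j ^ n_j` of abelian
varieties over the field with `q` elements with these Weil polynomials are disjoint unions of Tate
weights of codimension one.
-/

namespace Pool.Agent.Results.MP_677d84_ag.AlmostAllIsogenyClasses

open Pool.Agent.AWP

/-- **100 per cent of the isogeny classes.** -/
theorem result : ∀ (r : ℕ) (g : Fin r → ℕ), (∀ j, 1 ≤ g j) → ∀ ε : ℝ, 0 < ε →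
    ∃ q₀ : ℕ, ∀ p a q : ℕ, p.Prime → q = p ^ a → q₀ ≤ q →
      (Tuples g q).Finite ∧ 0 < (Tuples g q).ncard ∧
      (({b ∈ Tuples g q | ¬ Good q b}.ncard : ℕ) : ℝ) ≤ ε * ((Tuples g q).ncard : ℕ) :=
  p_MAIN (p_LOWER p_UPPER) p_UPPER p_CRTB p_PAT p_IRRD p_FROB p_TRANS p_CONJ p_ROU p_ONE p_IRR p_FIN

end Pool.Agent.Results.MP_677d84_ag.AlmostAllIsogenyClasses
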