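import Mathlib
import Pool.Agent.FQW.Targets
import Pool.Agent.FQW.FINP
import Pool.Agent.FQW.LOWA
import Pool.Agent.FQW.LOWER
import Pool.Agent.FQW.STEP
import Pool.Agent.FQW.TOP
import Pool.Agent.FQW.LAT
import Pool.Agent.FQW.DET
import Pool.Agent.FQW.STAR
import Pool.Agent.FQW.TLA
import Pool.Agent.FQW.TLOW
import Pool.Agent.FQW.TUA
import Pool.Agent.FQW.TUB
import Pool.Agent.FQW.TUP
import Pool.Agent.FQW.PAA
import Pool.Agent.FQW.PAB
import Pool.Agent.FQW.PAIRS
import Pool.Agent.FQW.TYP
import Pool.Agent.FQW.CLUS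
import Pool.Agent.FQW.E2A
import Pool.Agent.FQW.E2B
import Pool.Agent.FQW.E2C
import Pool.Agent.FQW.LAM
import Pool.Agent.FQW.E4
import Pool.Agent.FQW.E5A
import Pool.Agent.FQW.E5B
import Pool.Agent.FQW.E5
import Pool.Agent.FQW.E6A
import Pool.Agent.FQW.E6B
import Pool.Agent.FQW.E7
import Pool.Agent.FQW.E8
import Pool.Agent.FQW.KPA
import Pool.Agent.FQW.KP
import Pool.Agent.FQW.REDA
import Pool.Agent.FQW.RED
import Pool.Agent.FQW.PRG
import Pool.Agent.FQW.IRC
import Pool.Agent.FQW.VC
import Pool.Agent.FQW.CNT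
import Pool.Agent.FQW.PDV
import Pool.Agent.FQW.PD
import Pool.Agent.FQW.SMA
import Pool.Agent.FQW.SM
import Pool.Agent.FQW.BOX
import Pool.Agent.FQW.FRB1
import Pool.Agent.FQW.FRB2
import Pool.Agent.FQW.IRW
import Pool.Agent.FQW.RELA
import Pool.Agent.FQW.RELB
import Pool.Agent.FQW.RELC
import Pool.Agent.FQW.GD
import Pool.Agent.FQW.CV
import Pool.Agent.FQW.CELL
import Pool.Agent.FQW.MAIN

set_option autoImplicit false

/-!
# Isogeny classes over a fixed finite field, dimension to infinity

Fix `q ≥ 2`. There is `c > 0` such that, for all large `g`, all but a proportion `exp (-c g)` of the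
real Weil polynomials of degree `g` for `q` have an irreducible Weil polynomial and the property that
all Tate weights, of all codimensions, on all powers of an abelian variety over the field with `q`
elements with this Weil polynomial are disjoint unions of Tate weights of codimension one.

A real Weil polynomial of degree `g` for `q` is a monic integral polynomial `h` of degree `g` all of
whose complex roots are real and of absolute value at most `2 √q`; its Weil polynomial is
`f(x) = x ^ g h(x + q / x)`. If `q` is a prime then these are exactly the characteristic polynomials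
of the Frobenius of the isogeny classes of abelian varieties of dimension `g` over the field with `q`
elements (Honda, Tate).
-/

namespace Pool.Agent.Results.MP_677d84_ag.FixedFiniteField

open Pool.Agent.AWP (IsRealWeil)
open Pool.Agent.FQW

theorem p_TOP : T_TOP := tTOP tFINP tSTEP

theorem p_LOWER : T_LOWER := tLOWER tLOWA tFINP

theorem p_STAR : T_STAR := tSTAR tFINP p_TOP tLAT tDET

theorem p_TLOW : T_TLOW := tTLOW tFINP p_LOWER p_STAR tTLA

theorem p_TUP : T_TUP := tTUP tTUA tTUB

theorem p_PAIRS : T_PAIRS := tPAIRS tFINP p_LOWER p_STAR (tPAA p_TUP) tPAB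

theorem p_TYP : T_TYP := tTYP tFINP p_TLOW p_PAIRS

theorem p_KPA : T_KPA := tKPA tFINP tCLUS p_TUP (tE2A tCLUS) (tE2B tCLUS) (tE2C tCLUS p_TUP)
  (tE4 tLAM) (tE5 tE5A tE5B) tE6A tE6B

theorem p_KP : T_KP := tKP tFINP tCLUS tE7 tE8 p_KPA

theorem p_PD : T_PD := tPD tVC tCNT tIRC (tPDV tVC tCNT)

theorem p_BOX : T_BOX := tBOX p_PD (tSM tSMA)

theorem p_CELL : T_CELL := tCELL (tRED tFINP p_TOP tREDA) tPRG p_BOX tFRB1 tFRB2 tIRW tRELA tRELB
  tRELC tGD

/-- **100 per cent of the isogeny classes over a fixed finite field, dimension to infinity.** -/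
theorem result : ∀ q : ℕ, 2 ≤ q → ∃ c : ℝ, 0 < c ∧ ∃ g₀ : ℕ, ∀ g : ℕ, g₀ ≤ g →
    {b : Fin g → ℤ | IsRealWeil q b}.Finite ∧ 0 < {b : Fin g → ℤ | IsRealWeil q b}.ncard ∧
    (({b : Fin g → ℤ | IsRealWeil q b ∧ ¬ Good q b}.ncard : ℕ) : ℝ) ≤
      Real.exp (-(c * g)) * ({b : Fin g → ℤ | IsRealWeil q b}.ncard : ℕ) :=
  tMAIN tFINP p_LOWER p_TYP p_KP p_CELL tCV

end Pool.Agent.Results.MP_677d84_ag.FixedFiniteField
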