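import Mathlib
import Pool.Agent.GWN.MAIN
import Pool.Agent.GWN.PL
import Pool.Agent.GWN.RAT
import Pool.Agent.GWN.EX
import Pool.Agent.GWN.UN
import Pool.Agent.GWN.CNT
import Pool.Agent.GWN.SZ
import Pool.Agent.GWN.GOOD
import Pool.Agent.GWN.CONV
import Pool.Agent.GWN.ZERO

set_option autoImplicit false

namespace Pool.Agent.Results.MP_677d84_ag.GenericWeilNumbers

open NumberField Module
open Pool.Agent.CMT (QBar)
open Pool.Agent.FFT (TateByDivisors IsWeil)
open Pool.Agent.LCD (NoCommonPower)
open Pool.Agent.GWN

/-- **A zero-one law for the Tate classes of abelian varieties with multiplication by arbitrary CM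
fields, over finite fields.** Let `K_j` be finitely many CM fields, `p` a prime and `d` the number
of pairs of different complex conjugate places of the `K_j` above `p`. For `N ≥ 1` consider the
tuples of classes (up to common powers) of Weil numbers in the `K_j` whose slopes are multiples of
`1 / N`.

1. They form a finite set, and there are exactly `(N + 1) ^ d` of them if `N` is even or no place of
the `K_j` above `p` is its own complex conjugate.

2. Suppose that there is a single tuple of Weil `q`-numbers in the `K_j`, `q` a power of `p`, for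
which no two eigenvalues have a common power and all Tate weights on all products of powers are
disjoint unions of Tate weights of codimension one; or that every `K_j` can be embedded into the
`p`-adic numbers and that for every `j` there is an automorphism of the algebraic numbers which is
the identity on all conjugates of `K_j` and complex conjugation on all conjugates of the other
fields (no condition if there is only one field). Then for EVERY `N ≥ 1`, at most
`(∑ [K_j : ℚ] / 2) (N + 1) ^ (d - 1)` of the tuples of classes do not have this property. -/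
theorem result (J : Type) [Fintype J] (K : J → Type) [∀ j, Field (K j)]
    [∀ j, NumberField (K j)] [∀ j, IsCMField (K j)] (p : ℕ) [Fact p.Prime] :
    (∀ N : ℕ, 1 ≤ N → Finite (∀ j, SlopeClass p N (K j)) ∧
      ((Even N ∨ ∀ (j : J) (v : Place p (K j)),
          ∃ x, v.1 (IsCMField.complexConj (K j) x) ≠ v.1 x) →
        Nat.card (∀ j, SlopeClass p N (K j)) = (N + 1) ^ (∑ j, splitPairs p (K j)))) ∧
    (((∃ (q : ℕ) (π : ∀ j, K j), (∃ a : ℕ, 1 ≤ a ∧ q = p ^ a) ∧ (∀ j, IsWeil q (π j)) ∧
        NoCommonPower π ∧ TateByDivisors q π) ∨
      ((∀ j, Nonempty (K j →+* ℚ_[p])) ∧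
        ∀ j, ∃ σ : QBar ≃+* QBar, (∀ φ : K j →+* QBar, (σ : QBar →+* QBar).comp φ = φ) ∧
          ∀ k, k ≠ j → ∀ φ : K k →+* QBar,
            (σ : QBar →+* QBar).comp φ = φ.comp (IsCMField.complexConj (K k) : K k →+* K k))) →
      ∀ N : ℕ, 1 ≤ N →
        Nat.card {t : ∀ j, SlopeClass p N (K j) // BadTuple p N t} * (N + 1) ≤
          (∑ j, finrank ℚ (K j)) / 2 * (N + 1) ^ (∑ j, splitPairs p (K j))) :=
  p_MAIN p_RAT p_CNT p_SZ p_GOOD p_CONV p_ZERO (p_CLS (p_EX p_PL p_RAT) p_UN) J K p

end Pool.Agent.Results.MP_677d84_ag.GenericWeilNumbers
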